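import Pool.Agent.helper75.LC.Spec
import Pool.Agent.helper81.MX.D06

/-!
# Project lc, row AL5
-/

set_option autoImplicit false

namespace Pool.Agent.LC

open MX MG

open scoped MatrixGroups

theorem AL5_cmm {A W : Type*} [Group A] [AddCommGroup W] [DistribMulAction A W] (a b : A)
    (hab : a * b = b * a) (w : W) (hw : w ∈ cmm A W a) : b • w ∈ cmm A W a := by
  obtain ⟨u, hu⟩ := hw
  refine ⟨b • u, ?_⟩
  rw [hu, smul_sub, smul_smul, smul_smul, hab]

theorem AL5_self {A W : Type*} [Group A] [AddCommGroup W] [DistribMulAction A W] (a : A)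
    (w : W) : a • w - w ∈ cmm A W a := ⟨w, rfl⟩

/-- row AL5 -/
theorem AL5 (hBMO : BMO_stmt) (hLOW : LOW_stmt) : AL5_stmt := by
  intro A W _ _ _ _ _ hirr hf hp hA
  classical
  obtain ⟨a, b, y, haa, hbb, hab, ha1, hb1, hne, hya, hyb, hcent, hidx⟩ := hA
  have hbound := alt5_bound hp a b y haa hbb hab hya hyb hidx
  obtain ⟨hnt, _⟩ := hirr
  obtain ⟨w0, hw0⟩ := exists_ne (0 : W)
  let m : AddSubgroup W := cmm A W a
  let F : AddSubgroup W :=
    { carrier := {w | b • w - w ∈ m}
      add_mem' := by
        intro u v hu hv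
        have h := m.add_mem hu hv
        have e : b • (u + v) - (u + v) = (b • u - u) + (b • v - v) := by
          rw [smul_add]; abel
        show b • (u + v) - (u + v) ∈ m
        rw [e]; exact h
      zero_mem' := by
        show b • (0 : W) - 0 ∈ m
        rw [smul_zero, sub_zero]; exact m.zero_mem
      neg_mem' := by
        intro u hu
        have h := m.neg_mem hu
        have e : b • (-u) - (-u) = -(b • u - u) := by
          rw [smul_neg]; abel
        show b • (-u) - (-u) ∈ m
        rw [e]; exact h }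
  have hFmem : ∀ w : W, w ∈ F ↔ b • w - w ∈ m := fun w => Iff.rfl
  have hmF : m ≤ F := by
    intro w hw
    rw [hFmem]
    exact m.sub_mem (AL5_cmm a b hab w hw) hw
  have hcardF : Nat.card F = Nat.card {w : W // b • w - w ∈ cmm A W a} := rfl
  have hrel : Nat.card (m.addSubgroupOf F) * (m.addSubgroupOf F).index = Nat.card F :=
    AddSubgroup.card_mul_index _
  have hcm : Nat.card (m.addSubgroupOf F) = Nat.card m :=
    Nat.card_congr (AddSubgroup.addSubgroupOfEquivOfLe hmF).toEquiv
  have hmpos : 0 < Nat.card m := Nat.card_pos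
  have hidx1 : h1 A W ≤ Nat.card (F ⧸ m.addSubgroupOf F) := by
    have e1 : h1 A W * Nat.card m ≤ (m.addSubgroupOf F).index * Nat.card m := by
      rw [mul_comm (m.addSubgroupOf F).index, ← hcm, hrel, hcardF, hcm]
      exact hbound
    exact Nat.le_of_mul_le_mul_right e1 hmpos
  let f : (F ⧸ m.addSubgroupOf F) → W := fun q => ((Quotient.out q : F) : W)
  have hfinj : Function.Injective f := by
    intro q q' h
    have h2 : (Quotient.out q : F) = Quotient.out q' := Subtype.ext h
    rw [← Quotient.out_eq q, ← Quotient.out_eq q', h2]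
  have hfF : ∀ q, f q ∈ F := fun q => (Quotient.out q : F).2
  have hfeq : ∀ q q' : F ⧸ m.addSubgroupOf F, f q' - f q ∈ m → q = q' := by
    intro q q' h
    rw [← Quotient.out_eq q, ← Quotient.out_eq q']
    apply QuotientAddGroup.eq.2
    rw [AddSubgroup.mem_addSubgroupOf]
    have e : ((-(Quotient.out q : F) + (Quotient.out q' : F) : F) : W) = f q' - f q := by
      show -((Quotient.out q : F) : W) + ((Quotient.out q' : F) : W) = f q' - f q
      rw [sub_eq_add_neg, add_comm]
    rw [e]; exact h
  have hzero : ∀ q : F ⧸ m.addSubgroupOf F, f q ∈ m → q = 0 := by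
    intro q h
    have h2 : QuotientAddGroup.mk (s := m.addSubgroupOf F) (Quotient.out q : F) = 0 := by
      rw [QuotientAddGroup.eq_zero_iff, AddSubgroup.mem_addSubgroupOf]
      exact h
    have h3 : QuotientAddGroup.mk (s := m.addSubgroupOf F) (Quotient.out q : F) = q :=
      Quotient.out_eq q
    rw [← h3]; exact h2
  let s : Set W := f '' {q | q ≠ 0}
  have hscard : s.ncard = Nat.card (F ⧸ m.addSubgroupOf F) - 1 := by
    have e1 : s.ncard = ({q | q ≠ 0} : Set (F ⧸ m.addSubgroupOf F)).ncard :=
      Set.ncard_image_of_injective _ hfinj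
    have e2 : ({q | q ≠ 0} : Set (F ⧸ m.addSubgroupOf F)) = {0}ᶜ := by
      ext q; simp
    rw [e1, e2, Set.ncard_compl, Set.ncard_singleton]
  have : Fact (Nat.Prime 2) := ⟨Nat.prime_two⟩
  have key := hLOW A W 2 a ha1 ⟨1, by rw [pow_one, pow_two]; exact haa⟩ s {w0} ?_ ?_ ?_ ?_
  · rw [hscard, Set.ncard_singleton] at key
    have hpos : 0 < Nat.card (F ⧸ m.addSubgroupOf F) := Nat.card_pos
    refine hBMO.1 A W 2 _ _ ?_ key
    omega
  · rintro w ⟨q, hq, rfl⟩ h
    exact hq (hzero q h)
  · rintro w ⟨q, hq, rfl⟩ w' ⟨q', hq', rfl⟩ c n hn hcn h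
    obtain ⟨r, rfl⟩ : Odd n := Nat.not_even_iff_odd.1 fun h' => hn h'.two_dvd
    have hc : c * a = a * c := by
      rw [pow_succ, pow_mul, pow_two, haa, one_pow, one_mul] at hcn
      rw [eq_mul_inv_iff_mul_eq] at hcn
      exact hcn.symm
    rw [add_smul, one_smul, mul_comm, mul_smul, smul_comm r 2, hp, zero_add] at h
    have hcw : c • f q - f q ∈ m := by
      have hbq : b • f q - f q ∈ m := hfF q
      rcases hcent c hc with h1 | h1 | h1 | h1
      · rw [h1, one_smul, sub_self]; exact m.zero_mem
      · rw [h1]; exact AL5_self a _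
      · rw [h1]; exact hbq
      · rw [h1, mul_smul]
        have e : a • b • f q - f q = (a • (b • f q) - b • f q) + (b • f q - f q) := by abel
        rw [e]
        exact m.add_mem (AL5_self a _) hbq
    have h2 : f q' - f q ∈ m := by
      have e : f q' - f q = (f q' - c • f q) + (c • f q - f q) := by abel
      rw [e]; exact m.add_mem h hcw
    rw [hfeq q q' h2]
  · intro h
    exact hw0 (Set.mem_singleton_iff.1 h).symm
  · intro w hw w' hw' c _ _ _
    rw [Set.mem_singleton_iff.1 hw, Set.mem_singleton_iff.1 hw']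

end Pool.Agent.LC
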