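import Pool.Agent.helper75.LC.Asm
import Pool.Agent.helper81.MG.G05
import Pool.Agent.helper81.MX.A21

/-!
# Project lc (MP_8aef6e_al): assembly, second part
-/

set_option autoImplicit false

namespace Pool.Agent.LC

open MX MG

open scoped MatrixGroups

/-- the induction over the kernel of the action -/
theorem ALL (hBMO : BMO_stmt) (hQTA : QTA_stmt) (hQTB : QTB_stmt) (hPHE : PHE_stmt) (hMNB : MNB_stmt)
    (p : ℕ) [Fact p.Prime] {S : (L : Type) → [Group L] → Prop} (hS : SInv S)
    (hfaith : ∀ {H V : Type} [Group H] [Finite H] [AddCommGroup V] [Finite V] [DistribMulAction H V],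
      GoodS S H → Irr H V → Fth H V → (∀ v : V, p • v = 0) → BIG H V p (h1 H V)) :
    ∀ (H V : Type) [Group H] [Finite H] [AddCommGroup V] [Finite V] [DistribMulAction H V],
      GoodS S H → Irr H V → (∀ v : V, p • v = 0) → BIG H V p (h1 H V) := by
  have key : ∀ n : ℕ, ∀ (H V : Type) [Group H] [Finite H] [AddCommGroup V] [Finite V]
      [DistribMulAction H V], Nat.card H = n → GoodS S H → Irr H V → (∀ v : V, p • v = 0) →
      BIG H V p (h1 H V) := by
    intro n
    induction n using Nat.strong_induction_on with
    | _ n ih =>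
      intro H V _ _ _ _ _ hn hG hirr hp
      by_cases hf : Fth H V
      · exact hfaith hG hirr hf hp
      -- the kernel
      let C : Subgroup H :=
        { carrier := {h | ∀ v : V, h • v = v}
          mul_mem' := by
            intro a b ha hb v
            rw [mul_smul, hb v, ha v]
          one_mem' := fun v => one_smul H v
          inv_mem' := by
            intro a ha v
            have h := congrArg (fun w => a⁻¹ • w) (ha v)
            simp only [inv_smul_smul] at h
            exact h.symm }
      have hCn : C.Normal := by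
        constructor
        intro c hc g v
        have hc' : ∀ v : V, c • v = v := hc
        rw [mul_smul, mul_smul, hc', smul_inv_smul]
      have hCne : C ≠ ⊥ := by
        intro h
        apply hf
        intro x hx
        have h1 : x ∈ C := hx
        rw [h, Subgroup.mem_bot] at h1
        exact h1
      obtain ⟨K, hK, hKC⟩ := R05_min C hCne
      have hKn : K.Normal := hK.1
      have htr : ∀ k ∈ K, ∀ v : V, k • v = v := fun k hk => hKC hk
      -- the action of the quotient
      let e : H ⧸ K →* Multiplicative (AddAut V) :=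
        QuotientGroup.lift K (DistribMulAction.toAddAut H V) (by
          intro k hk
          apply Multiplicative.toAdd.injective
          apply AddEquiv.ext
          intro v
          exact htr k hk v)
      let act : DistribMulAction (H ⧸ K) V :=
        { smul := fun x v => (Multiplicative.toAdd (e x)) v
          one_smul := fun v => by
            show (Multiplicative.toAdd (e 1)) v = v
            rw [map_one]
            rfl
          mul_smul := fun x y v => by
            show (Multiplicative.toAdd (e (x * y))) v =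
              (Multiplicative.toAdd (e x)) ((Multiplicative.toAdd (e y)) v)
            rw [map_mul]
            rfl
          smul_zero := fun x => map_zero (Multiplicative.toAdd (e x))
          smul_add := fun x a b => map_add (Multiplicative.toAdd (e x)) a b }
      let q : H →* H ⧸ K := QuotientGroup.mk' K
      have hq : Function.Surjective q := QuotientGroup.mk'_surjective _
      have hker : q.ker = K := QuotientGroup.ker_mk' K
      have hact : ∀ (h : H) (v : V), h • v = q h • v := fun h v => rfl
      have hirr' : Irr (H ⧸ K) V := by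
        refine ⟨hirr.1, fun U hU => hirr.2 U fun h v hv => ?_⟩
        rw [hact]
        exact hU (q h) v hv
      have hcard : Nat.card (H ⧸ K) < n := by
        have h2 := Subgroup.card_eq_card_quotient_mul_card_subgroup K
        have h3 : 1 < Nat.card K := by
          rw [Subgroup.one_lt_card_iff_ne_bot]
          exact hK.2.1
        have h4 : 0 < Nat.card (H ⧸ K) := Nat.card_pos
        rw [hn] at h2
        nlinarith
      have hrec : BIG (H ⧸ K) V p (h1 (H ⧸ K) V) :=
        ih _ hcard (H ⧸ K) V rfl (goodS_quot hS hG K) hirr' hp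
      have hle : h1 H V ≤ Nat.card (PhiS V q) * h1 (H ⧸ K) V := h1_le_Phi q hq hact
      by_cases hz : ∀ d ∈ Der H V, ∀ k ∈ K, d k = 0
      · have hone : Nat.card (PhiS V q) = 1 := by
          have hsub : ∀ f : PhiS V q, f = 0 := by
            rintro ⟨f, α, hα, hf'⟩
            apply Subtype.ext
            funext c
            change f c = 0
            rw [hf' c]
            refine hz α hα c ?_
            have h1 : q (c : H) = 1 := c.2
            exact (QuotientGroup.eq_one_iff _).1 h1
          have : Subsingleton (PhiS V q) := ⟨fun a b => by rw [hsub a, hsub b]⟩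
          exact Nat.card_of_subsingleton 0
        rw [hone, one_mul] at hle
        exact hBMO.1 H V p _ _ hle (hQTA H (H ⧸ K) V p q hq hact _ hrec)
      · push Not at hz
        obtain ⟨b, hb, k, hk, hbk⟩ := hz
        obtain ⟨h1', h2', h3'⟩ := hMNB H V p hp hirr K hK htr b hb ⟨k, hk, hbk⟩
        have hs : ∀ v : V, ∃ k ∈ q.ker, b k = v := by
          rw [hker]
          exact h1'
        have hPhi := hPHE H (H ⧸ K) V q (by rw [hker]; exact htr) b hb hs (by rw [hker]; exact h2')
        have hB := hQTB H (H ⧸ K) V p q hq hact hirr b hb hs (by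
          rw [hker]
          intro k hk
          exact ⟨1, by rw [pow_one]; exact h3' k hk⟩) _ hrec
        exact hBMO.1 H V p _ _ (hle.trans (Nat.mul_le_mul_right _ hPhi)) hB
  intro H V _ _ _ _ _ hG hirr hp
  exact key _ H V rfl hG hirr hp

theorem mcl_empty (G : Type) [Group G] (P : Subgroup G → Prop) (h : ∀ M, IsCoatom M → ¬ P M) :
    mcl G P = ∅ := by
  rw [Set.eq_empty_iff_forall_notMem]
  rintro T ⟨M, h1, h2, -⟩
  exact h M h1 h2

/-- the main induction -/
theorem MAIN (hPCQ : PCQ_stmt) (hPCS : PCS_stmt) (hMSP : MSP_stmt) (hNA1 : NA1_stmt) (hNA2 : NA2_stmt)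
    (p : ℕ) [Fact p.Prime] {S : (L : Type) → [Group L] → Prop} (hS : SInv S)
    (hall : ∀ (H V : Type) [Group H] [Finite H] [AddCommGroup V] [Finite V] [DistribMulAction H V],
      GoodS S H → Irr H V → (∀ v : V, p • v = 0) → BIG H V p (h1 H V)) :
    ∀ (G : Type) [Group G] [Finite G], GoodS S G → (mcl G (PA p)).ncard ≤ (pcl p G).ncard := by
  have key : ∀ n : ℕ, ∀ (G : Type) [Group G] [Finite G], Nat.card G = n → GoodS S G →
      (mcl G (PA p)).ncard ≤ (pcl p G).ncard := by
    intro n
    induction n using Nat.strong_induction_on with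
    | _ n ih =>
      intro G _ _ hn hG
      rcases subsingleton_or_nontrivial G with hsub | hnt
      · rw [mcl_empty G (PA p) (by
          intro M hM _
          exact hM.1 (Subsingleton.elim _ _)), Set.ncard_empty]
        exact Nat.zero_le _
      obtain ⟨N, hN⟩ := A22_minN (H := G)
      have hNn : N.Normal := hN.1
      have hcard : Nat.card (G ⧸ N) < n := by
        have h2 := Subgroup.card_eq_card_quotient_mul_card_subgroup N
        have h3 : 1 < Nat.card N := by
          rw [Subgroup.one_lt_card_iff_ne_bot]
          exact hN.2.1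
        have h4 : 0 < Nat.card (G ⧸ N) := Nat.card_pos
        rw [hn] at h2
        nlinarith
      have hGq : GoodS S (G ⧸ N) := goodS_quot hS hG N
      have hrec := ih _ hcard (G ⧸ N) rfl hGq
      have hstep := hMSP G N p
      have hq := hPCQ G (G ⧸ N) p (QuotientGroup.mk' N) (QuotientGroup.mk'_surjective N)
      have hempty : (∀ M : Subgroup G, IsCoatom M → PA p M → N ≤ M) →
          (mcl G (PA p)).ncard ≤ (pcl p G).ncard := by
        intro h
        have h0 : mcl G (fun M => PA p M ∧ ¬ N ≤ M) = ∅ := mcl_empty G _ (by
          rintro M hM ⟨h1, h2⟩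
          exact h2 (h M hM h1))
        rw [h0, Set.ncard_empty] at hstep
        omega
      by_cases hc : ∀ a ∈ N, ∀ b ∈ N, a * b = b * a
      swap
      · push Not at hc
        exact hempty (hNA1 G N hN hc p)
      by_cases hex : ∃ M : Subgroup G, IsCoatom M ∧ ¬ N ≤ M
      swap
      · apply hempty
        intro M hM _
        by_contra h
        exact hex ⟨M, hM, h⟩
      obtain ⟨H, hH, hNH⟩ := hex
      obtain ⟨V, iV, fV, aV, j, hs, hirr⟩ := spl_exists N hN hc H hH hNH
      obtain ⟨r, hr, hrv⟩ := irr_prime hirr
      have hrf : Fact r.Prime := ⟨hr⟩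
      by_cases hrp : r = p
      swap
      · refine hempty (hNA2 G N hN hc p r hrp ?_)
        intro a ha
        rw [← hs.rng] at ha
        obtain ⟨v, rfl⟩ := ha
        rw [← map_pow]
        have h1 : v ^ r = 1 := hrv (Multiplicative.toAdd v)
        rw [h1, map_one]
      · subst hrp
        have e1 := spl_count N hN hc H j hs
        have hGH : GoodS S H := goodS_iso hS hGq
          (MulEquiv.ofBijective _ (A27_bij N H hs.dis hs.top)).symm
        have e2 := hall H V hGH hirr hrv
        have e3 := hPCS G V N H j r hNn hs hrv _ e2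
        have e4 := hPCQ H (G ⧸ N) r ((QuotientGroup.mk' N).comp H.subtype)
          (A27_bij N H hs.dis hs.top).2
        have e5 : (mcl G (fun M => PA r M ∧ ¬ N ≤ M)).ncard ≤ (mcl G (fun M => ¬ N ≤ M)).ncard := by
          apply Set.ncard_le_ncard
          · rintro T ⟨M, h1, h2, h3⟩
            exact ⟨M, h1, h2.2, h3⟩
          · exact Set.toFinite _
        omega
  intro G _ _ hG
  exact key _ G rfl hG

/-- the local theorem -/
theorem LOCAL (hBMO : BMO_stmt) (hQTA : QTA_stmt) (hQTB : QTB_stmt) (hPHE : PHE_stmt)
    (hMNB : MNB_stmt) (hIND : IND_stmt) (hCYC : CYC_stmt) (hSTD : STD_stmt) (hPCQ : PCQ_stmt)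
    (hPCS : PCS_stmt) (hMSP : MSP_stmt) (hNA1 : NA1_stmt) (hNA2 : NA2_stmt)
    (p : ℕ) [Fact p.Prime] (G : Type) [Group G] [Finite G] (hG : CF (fun L _ => SP p L) G) :
    (mcl G (PA p)).ncard ≤ (pcl p G).ncard := by
  have hS := SInv_SP p
  refine MAIN hPCQ hPCS hMSP hNA1 hNA2 p hS ?_ G (goodS_of_cf hS G hG)
  refine ALL hBMO hQTA hQTB hPHE hMNB p hS ?_
  intro H V _ _ _ _ _ hG hirr hf hp
  refine FTH hBMO hIND p hS ?_ hG hirr hf hp
  intro A W _ _ _ _ _ L hL hSL hi hf hp
  rcases hSL with ⟨x, hx, hxi⟩ | ⟨l, hl, hl5, e⟩
  · have hLn := hL.norm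
    refine hCYC A W p hp hi.1 L hLn ?_ x hx hxi
    obtain ⟨a, ha, b, hb, hab⟩ := hL.nc
    refine A21_fix hi hf L ?_
    by_cases h1 : a = 1
    · refine absurd ?_ hab
      rw [h1, one_mul, mul_one]
    · exact ⟨a, h1, ha⟩
  · exact hSTD A W L ⟨hL.norm, hL.cent, l, hl, hl5, e⟩ hi hf p hp

end Pool.Agent.LC
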