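import Pool.Agent.helper81.MX.Defs4
import Pool.Agent.helper81.MX.Defs2
import Pool.Agent.helper81.MG.Defs

/-!
Project lc (MP_8aef6e_al): a local theorem on classes of maximal subgroups. Definitions.
-/

set_option autoImplicit false

namespace Pool.Agent.LC

open MX MG

open scoped MatrixGroups

/-- The relation on pairs `(v, h)`: the cyclic subgroups generated by `v h` are conjugate in the
semidirect product. -/
def RelP (p : ℕ) {H V : Type} [Group H] [AddCommGroup V] [DistribMulAction H V] (x y : V × H) : Prop :=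
  ∃ (a : H) (m : ℕ), ¬ p ∣ m ∧ y.2 = a * x.2 ^ m * a⁻¹ ∧ y.1 - m • (a • x.1) ∈ cmm H V y.2

/-- There are at least `n` classes of pairs `(v, h)`, `h` a `p`-element, `v` outside `[V, h]`. -/
def BIG (H V : Type) [Group H] [AddCommGroup V] [DistribMulAction H V] (p n : ℕ) : Prop :=
  ∃ f : Fin n → V × H, (∀ i, (f i).1 ∉ cmm H V (f i).2) ∧ (∀ i, ∃ k : ℕ, (f i).2 ^ (p ^ k) = 1) ∧
    ∀ i j, RelP p (f i) (f j) → i = j

/-- The conjugacy classes of nontrivial cyclic `p`-subgroups. -/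
def pcl (p : ℕ) (G : Type) [Group G] : Set (Set (Subgroup G)) :=
  {S | ∃ x : G, x ≠ 1 ∧ (∃ k : ℕ, x ^ (p ^ k) = 1) ∧
    S = Set.range (fun g : G => cj g (Subgroup.zpowers x))}

/-- `G / core(M)` has a nontrivial normal abelian `p`-subgroup (for a maximal subgroup `M`). -/
def PA (p : ℕ) {G : Type} [Group G] (M : Subgroup G) : Prop :=
  ∃ N : Subgroup G, N.Normal ∧ ¬ N ≤ M ∧ (∀ a ∈ N, ∀ b ∈ N, a * b * a⁻¹ * b⁻¹ ∈ M) ∧
    ∀ a ∈ N, ∃ k : ℕ, a ^ (p ^ k) ∈ M

/-- The simple groups with a cyclic Sylow `p`-subgroup and the groups `PSL(2,l)`. -/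
def SP (p : ℕ) (L : Type) [Group L] : Prop :=
  (∃ x : L, (∃ k : ℕ, x ^ (p ^ k) = 1) ∧ ¬ p ∣ (Subgroup.zpowers x).index) ∨
    ∃ l : ℕ, l.Prime ∧ 5 ≤ l ∧ Nonempty (L ≃* PSL(2, ZMod l))

/-- The endomorphisms of the module. -/
def EndH (H V : Type) [Group H] [AddCommGroup V] [DistribMulAction H V] : Type :=
  {e : V →+ V // ∀ (h : H) (v : V), e (h • v) = h • e v}

end Pool.Agent.LC
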