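import Pool.Agent.helper75.LC.Asm2
import Pool.Agent.helper75.LC.AL5
import Pool.Agent.helper39.LC.BMO
import Pool.Agent.helper25.LC.CYC
import Pool.Agent.helper52.LC.EV2
import Pool.Agent.helper44.LC.IND
import Pool.Agent.helper99.LC.LOW
import Pool.Agent.helper30.LC.MNB
import Pool.Agent.helper99.LC.MSP
import Pool.Agent.helper41.LC.NA1
import Pool.Agent.helper83.LC.NA2
import Pool.Agent.helper3.LC.PCQ
import Pool.Agent.helper74.LC.PCS
import Pool.Agent.helper18.LC.PHE
import Pool.Agent.helper98.LC.QTA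
import Pool.Agent.helper76.LC.QTB
import Pool.Agent.helper43.LC.SOL
import Pool.Agent.helper92.LC.STD

/-!
# Project lc (MP_8aef6e_al): the theorem
-/

set_option autoImplicit false

namespace Pool.Agent.LC

open MX MG

open scoped MatrixGroups

/-- the local theorem, without hypotheses -/
theorem local_thm (p : ℕ) [Fact p.Prime] (G : Type) [Group G] [Finite G]
    (hG : CF (fun L _ => SP p L) G) : (mcl G (PA p)).ncard ≤ (pcl p G).ncard :=
  LOCAL BMO QTA QTB PHE MNB IND (CYC BMO LOW) (STD (EV2 BMO LOW) (AL5 BMO LOW) (CYC BMO LOW))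
    PCQ PCS MSP NA1 NA2 p G hG

end Pool.Agent.LC
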