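import Pool.Agent.helper75.LC.Spec
import Pool.Agent.helper81.MG.G01
import Pool.Agent.helper81.MG.G03
import Pool.Agent.helper81.MG.G05
import Pool.Agent.helper81.MG.G07
import Pool.Agent.helper81.MX.A01
import Pool.Agent.helper81.MX.A22
import Pool.Agent.helper81.MX.A24
import Pool.Agent.helper81.MX.M02

/-!
# Project lc (MP_8aef6e_al): maximal subgroups of index divisible by `p` of `p`-solvable groups
-/

set_option autoImplicit false

namespace Pool.Agent.LC

open MX MG

open scoped MatrixGroups

theorem PSV_SInv (p : ℕ) : SInv (fun L _ => ¬ p ∣ Nat.card L) := by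
  rintro L _ L' _ ⟨e⟩ h
  rw [← Nat.card_congr e.toEquiv]
  exact h

/-- a product of normal subgroups of order prime to `p` -/
theorem PSV_sup {K ι : Type*} [Group K] [Finite K] (p : ℕ) (hp : p.Prime) (L : ι → Subgroup K)
    (hn : ∀ i, (L i).Normal) (hL : ∀ i, ¬ p ∣ Nat.card (L i)) (J : Finset ι) :
    (J.sup L).Normal ∧ ¬ p ∣ Nat.card (J.sup L : Subgroup K) := by
  classical
  induction J using Finset.induction_on with
  | empty =>
    refine ⟨by rw [Finset.sup_empty]; infer_instance, ?_⟩
    rw [Finset.sup_empty, Subgroup.card_bot]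
    exact hp.one_lt.ne' ∘ Nat.dvd_one.1
  | insert a s _ ih =>
    obtain ⟨h1, h2⟩ := ih
    have hna := hn a
    rw [Finset.sup_insert]
    refine ⟨inferInstance, ?_⟩
    have h3 := Subgroup.relIndex_sup_left (H := L a) (K := s.sup L)
    have h4 : Nat.card (s.sup L : Subgroup K) * (s.sup L).relIndex (s.sup L ⊔ L a) =
        Nat.card (s.sup L ⊔ L a : Subgroup K) := by
      have h5 := Subgroup.card_mul_index ((s.sup L).subgroupOf (s.sup L ⊔ L a))
      rw [Nat.card_congr (Subgroup.subgroupOfEquivOfLe
        (le_sup_left : s.sup L ≤ s.sup L ⊔ L a)).toEquiv] at h5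
      exact h5
    rw [h3] at h4
    rw [sup_comm, ← h4]
    intro h
    rcases (Nat.Prime.dvd_mul hp).1 h with h | h
    · exact h2 h
    · exact hL a (h.trans (Subgroup.relIndex_dvd_card (s.sup L) (L a)))

theorem PSV_N {G : Type} [Group G] [Finite G] (p : ℕ) (hp : p.Prime) {L N : Subgroup G}
    (hN : MinN N) (hM : Mfac L N) (hL : ¬ p ∣ Nat.card L) : ¬ p ∣ Nat.card N := by
  classical
  have hNn := hN.1
  have hfin : Fintype G := Fintype.ofFinite G
  have hle : ∀ g : G, cj g L ≤ N := by
    intro g
    rw [hM.sup]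
    exact le_iSup (fun g : G => cj g L) g
  obtain ⟨m1, m2, -⟩ := Mfac_basic hM
  have hn : ∀ g : G, ((cj g L).subgroupOf N).Normal := by
    intro g
    constructor
    intro x hx n
    rw [Subgroup.mem_subgroupOf, mem_cj] at hx ⊢
    have h1 : g⁻¹ * (n : G) * g ∈ Subgroup.normalizer (L : Set G) := by
      apply m2
      have := hNn.conj_mem n n.2 g⁻¹
      rwa [inv_inv] at this
    have h2 := (Subgroup.mem_normalizer_iff.1 h1 _).1 hx
    have h3 : g⁻¹ * (n : G) * g * (g⁻¹ * (x : G) * g) * (g⁻¹ * (n : G) * g)⁻¹ =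
        g⁻¹ * ((n * x * n⁻¹ : N) : G) * g := by
      rw [Subgroup.coe_mul, Subgroup.coe_mul, Subgroup.coe_inv]
      group
    rw [← h3]
    exact h2
  have hc : ∀ g : G, ¬ p ∣ Nat.card ((cj g L).subgroupOf N) := by
    intro g
    have h1 : Nat.card ((cj g L).subgroupOf N) = Nat.card L := by
      rw [Nat.card_congr (Subgroup.subgroupOfEquivOfLe (hle g)).toEquiv]
      unfold cj
      exact (Nat.card_congr (L.equivMapOfInjective _ (MulAut.conj g).injective).toEquiv).symm
    rw [h1]
    exact hL
  have h1 := (PSV_sup p hp (fun g : G => (cj g L).subgroupOf N) hn hc Finset.univ).2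
  have h2 : (Finset.univ.sup fun g : G => (cj g L).subgroupOf N) = ⊤ := by
    rw [eq_top_iff]
    have h3 : N ≤ (Finset.univ.sup fun g : G => (cj g L).subgroupOf N).map N.subtype := by
      conv_lhs => rw [hM.sup]
      refine iSup_le fun g => ?_
      have h4 : (cj g L).subgroupOf N ≤ Finset.univ.sup fun g : G => (cj g L).subgroupOf N :=
        Finset.le_sup (f := fun g : G => (cj g L).subgroupOf N) (Finset.mem_univ g)
      refine le_trans ?_ (Subgroup.map_mono h4)
      rw [Subgroup.map_subgroupOf_eq_of_le (hle g)]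
    rintro ⟨x, hx⟩ -
    obtain ⟨y, hy, hyx⟩ := h3 hx
    have h5 : y = ⟨x, hx⟩ := Subtype.ext hyx
    rw [← h5]
    exact hy
  rw [h2, Subgroup.card_top] at h1
  exact h1

/-- maximal subgroups of index divisible by `p` of groups whose nonabelian composition factors have
order prime to `p` -/
theorem PSV (p : ℕ) [hp : Fact p.Prime] (G : Type) [Group G] [Finite G]
    (hG : CF (fun L _ => ¬ p ∣ Nat.card L) G) (M : Subgroup G) (hM : IsCoatom M)
    (hpM : p ∣ M.index) : PA p M := by
  have hGS := goodS_of_cf (PSV_SInv p) G hG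
  let C := M.normalCore
  have hCM : C ≤ M := M.normalCore_le
  have hCn : C.Normal := inferInstance
  let π : G →* G ⧸ C := QuotientGroup.mk' C
  have hs : Function.Surjective π := QuotientGroup.mk'_surjective C
  have hker : π.ker = C := QuotientGroup.ker_mk' C
  have hcm : (M.map π).comap π = M := by
    rw [Subgroup.comap_map_eq, hker]
    exact sup_eq_left.2 hCM
  have hne : M.map π ≠ ⊤ := by
    intro htop
    rw [htop, Subgroup.comap_top] at hcm
    exact hM.1 hcm.symm
  have hMq : IsCoatom (M.map π) := by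
    refine ⟨hne, fun K hK => ?_⟩
    have h1 : M < K.comap π := by
      rw [← hcm]
      exact (Subgroup.comap_lt_comap_of_surjective hs).2 hK
    have h2 := hM.2 _ h1
    rw [← Subgroup.map_comap_eq_self_of_surjective hs K, h2]
    exact Subgroup.map_top_of_surjective _ hs
  have hidx : (M.map π).index = M.index := by
    rw [← Subgroup.index_comap_of_surjective _ hs, hcm]
  rcases subsingleton_or_nontrivial (G ⧸ C) with hsub | hnt
  · exact absurd (Subsingleton.elim _ _) hne
  obtain ⟨N, hN⟩ := A22_minN (H := G ⧸ C)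
  have hNn := hN.1
  have hNC : ¬ N.comap π ≤ M := by
    intro h
    apply hN.2.1
    have hn : (N.comap π).Normal := inferInstance
    have h1 : N.comap π ≤ C := (Subgroup.normal_le_normalCore).2 h
    rw [eq_bot_iff]
    intro x hx
    obtain ⟨g, rfl⟩ := hs x
    have h2 : g ∈ C := h1 hx
    rw [Subgroup.mem_bot]
    exact (QuotientGroup.eq_one_iff g).2 h2
  have hNM : ¬ N ≤ M.map π := by
    intro h
    apply hNC
    rw [← hcm]
    exact Subgroup.comap_mono h
  have htop : N ⊔ M.map π = ⊤ := by
    refine hMq.2 _ (lt_of_le_of_ne le_sup_right ?_)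
    intro h
    apply hNM
    rw [h]
    exact le_sup_left
  have hpN : p ∣ Nat.card N := by
    have h1 : (M.map π).index ∣ Nat.card N := by
      have c1 := Subgroup.card_mul_index (M.map π)
      have c2 := Subgroup.card_mul_index N
      have c3 := Subgroup.card_mul_index (N.subgroupOf (M.map π))
      have c4 : (N.subgroupOf (M.map π)).index = N.index := by
        have h3 := Subgroup.relIndex_sup_left (H := M.map π) (K := N)
        rw [htop, Subgroup.relIndex_top_right] at h3
        exact h3.symm
      rw [c4] at c3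
      have c5 : 0 < N.index := Nat.pos_of_ne_zero Subgroup.index_ne_zero_of_finite
      rw [← c2, ← c3] at c1
      refine ⟨Nat.card (N.subgroupOf (M.map π)), ?_⟩
      apply Nat.eq_of_mul_eq_mul_right c5
      rw [← c1]
      ring
    rw [hidx] at h1
    exact hpM.trans h1
  by_cases hc : ∀ a ∈ N, ∀ b ∈ N, a * b = b * a
  · obtain ⟨V, iV, fV, aV, j, hsp, hirr⟩ := spl_exists N hN hc (M.map π) hMq hNM
    obtain ⟨r, hr, hrv⟩ := irr_prime hirr
    have hexp : ∀ a ∈ N, a ^ r = 1 := by
      intro a ha
      rw [← hsp.rng] at ha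
      obtain ⟨v, rfl⟩ := ha
      rw [← map_pow]
      have h1 : v ^ r = 1 := hrv (Multiplicative.toAdd v)
      rw [h1, map_one]
    have hrp : r = p := by
      obtain ⟨x, hx⟩ := exists_prime_orderOf_dvd_card' (G := N) p hpN
      have h1 : x ^ r = 1 := Subtype.ext (hexp x x.2)
      have h2 : p ∣ r := by
        rw [← hx]
        exact orderOf_dvd_of_pow_eq_one h1
      exact ((Nat.prime_dvd_prime_iff_eq hp.out hr).1 h2).symm
    subst hrp
    refine ⟨N.comap π, inferInstance, hNC, ?_, ?_⟩
    · intro a ha b hb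
      apply hCM
      have h1 : π a * π b = π b * π a := hc _ ha _ hb
      rw [← hker, MonoidHom.mem_ker, map_mul, map_mul, map_mul, h1, map_inv, map_inv]
      group
    · intro a ha
      refine ⟨1, ?_⟩
      apply hCM
      rw [← hker, MonoidHom.mem_ker, map_pow, pow_one]
      exact hexp _ ha
  · exfalso
    push Not at hc
    obtain ⟨L, hL⟩ := exists_Mfac N hN hc
    exact PSV_N p hp.out hN hL (S_factor (PSV_SInv p) (goodS_quot (PSV_SInv p) hGS C) hN hL) hpN

end Pool.Agent.LC
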