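import Pool.Agent.helper75.LC.Defs

/-!
# Project lc (MP_8aef6e_al): rows

The theorem: `p` a prime, `G` a finite group whose nonabelian composition factors have cyclic Sylow `p`-subgroups or are
`PSL(2,l)`, `l ≥ 5` prime. Then the number of classes of maximal subgroups `M` such that `G / core(M)` has a nontrivial normal
abelian `p`-subgroup is at most the number of classes of nontrivial cyclic `p`-subgroups of `G`.

RULES. One file per row: `Pool/Agent/<seat>/LC/XXX.lean`, `import Pool.Agent.helper75.LC.Spec`, `set_option autoImplicit false`,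
`namespace Pool.Agent.LC`, `open MX MG`, `open scoped MatrixGroups`, auxiliary lemmas prefixed `XXX_`. Theorem line
`theorem XXX : XXX_stmt` (or with the listed rows as hypotheses, e.g. `theorem EV2 (hLOW : LOW_stmt) : EV2_stmt`); rows wait for
nobody. No double quotes, no `convert` / `congr!`. Lemmas of the files `Pool/Agent/helper81/MX/*.lean`, `MG/*.lean` (all landed)
may be imported and used.

Notation. `Der H V` derivations `d (g h) = d g + g d h`; `cmm H V x = [V, x] = {x u - u}`; `h1 H V` the order of `H^1`.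
Basic facts: `d (a y a⁻¹) = d a + a d y - (a y a⁻¹) d a`, so `≡ a d y` modulo `[V, a y a⁻¹]`; `d (y ^ m) ≡ m d y` modulo
`[V, y]`; `[V, y ^ m] ⊆ [V, y]`; `a [V, y] = [V, a y a⁻¹]`.
-/

set_option autoImplicit false

namespace Pool.Agent.LC

open MX MG

open scoped MatrixGroups

/-- ROW lc:BMO (short). Monotonicity, and the pair `(v, 1)` with `v ≠ 0` (`[V, 1] = 0`). -/
def BMO_stmt : Prop := (∀ (H V : Type) [Group H] [AddCommGroup V] [DistribMulAction H V] (p m n : ℕ), m ≤ n →
    BIG H V p n → BIG H V p m) ∧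
  ∀ (H V : Type) [Group H] [AddCommGroup V] [DistribMulAction H V] (p : ℕ), Nontrivial V → BIG H V p 1

/-- ROW lc:LOW (short-medium). A lower bound: the pairs `(w, x)`, `w ∈ s`, and `(w, 1)`, `w ∈ t`. If `(w, x)` and `(w', 1)`
are related (in one of the two orders) then `1` is conjugate to `x ^ m` or `x` is conjugate to `1 ^ m = 1`, with `p ∤ m`; since `x` is a
`p`-element this gives `x = 1`. `[V, 1] = 0`. The index set `Fin (s.ncard + t.ncard)` is in bijection with `s ⊕ t` (finite sets). -/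
def LOW_stmt : Prop := ∀ (A W : Type) [Group A] [AddCommGroup W] [DistribMulAction A W] [Finite W] (p : ℕ) [Fact p.Prime]
  (x : A) (_ : x ≠ 1) (_ : ∃ k : ℕ, x ^ (p ^ k) = 1) (s t : Set W), (∀ w ∈ s, w ∉ cmm A W x) →
  (∀ w ∈ s, ∀ w' ∈ s, ∀ (c : A) (m : ℕ), ¬ p ∣ m → x = c * x ^ m * c⁻¹ → w' - m • (c • w) ∈ cmm A W x → w = w') →
  ((0 : W) ∉ t) → (∀ w ∈ t, ∀ w' ∈ t, ∀ (c : A) (m : ℕ), ¬ p ∣ m → w' = m • (c • w) → w = w') →
  BIG A W p (s.ncard + t.ncard)

/-- ROW lc:QTA (short-medium). Lifting the pairs through a quotient acting in the same way: for the pair `(v, y)` of `Hq` choose a `p`-element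
`h` of `H` over `y` (a preimage `h₀`, `y ^ (p ^ k) = 1`; the order of `h₀` is `p ^ j m`, `p ∤ m`; `h = h₀ ^ (m m')` with `m m' ≡ 1` modulo `p ^ k`).
`[V, h] = [V, y]`; related pairs of `H` have related images. -/
def QTA_stmt : Prop := ∀ (H Hq V : Type) [Group H] [Group Hq] [AddCommGroup V] [DistribMulAction H V]
  [DistribMulAction Hq V] [Finite H] (p : ℕ) [Fact p.Prime] (q : H →* Hq), Function.Surjective q →
  (∀ (h : H) (v : V), h • v = q h • v) → ∀ n : ℕ, BIG Hq V p n → BIG H V p n

/-- ROW lc:QTB (medium). `V` irreducible, `b` a derivation of `H` whose restriction to the kernel `K` of `q : H → Hq` (acting trivially)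
is onto `V`, `K` a `p`-group. For a pair `(v, y)` of `Hq` and `e ∈ EndH` choose `h₀` over `y`, and `k ∈ K` with `b k = e v - b h₀`; `h = k h₀` has
`b h = b k + b h₀ = e v` and is a `p`-element (`h ^ (p ^ k')` lies in the `p`-group `K`). The pairs `(v, h)` for all `(v, y)` and `e` are unrelated: if `(v, h)` (for
`i, e`) and `(v', h')` (for `i', e'`) are related by `a, m` then the images are related by `q a, m`, so `i = i'`, `v = v'`, `y = y'`; and
`e' v = b h' = b (a h ^ m a⁻¹) ≡ m a e v = e (m a v) ≡ e v` modulo `[V, y]` (`e` maps `[V, y]` into itself, `m a v ≡ v` modulo `[V, y]`).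
If `e ≠ e'` then `e' - e` is bijective (its kernel and its range are stable, `V` is irreducible), with inverse in `EndH`, so
`v ∈ (e' - e)⁻¹ [V, y] ⊆ [V, y]`, a contradiction. Index set: `Fin (card E * n) ≃ E × Fin n`. -/
def QTB_stmt : Prop := ∀ (H Hq V : Type) [Group H] [Group Hq] [AddCommGroup V] [DistribMulAction H V]
  [DistribMulAction Hq V] [Finite H] [Finite V] (p : ℕ) [Fact p.Prime] (q : H →* Hq), Function.Surjective q →
  (∀ (h : H) (v : V), h • v = q h • v) → Irr H V → ∀ b ∈ Der H V, (∀ v : V, ∃ k ∈ q.ker, b k = v) →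
  (∀ k ∈ q.ker, ∃ i : ℕ, k ^ (p ^ i) = 1) → ∀ n : ℕ, BIG Hq V p n → BIG H V p (Nat.card (EndH H V) * n)

/-- ROW lc:PHE (short-medium). `b` a derivation whose restriction to `K = ker q` (acting trivially) is bijective onto `V`. Restrictions of derivations to
`K` are additive and equivariant (`d (k k') = d k + d k'`, `d (h k h⁻¹) = h d k`), so the restriction of `d` is `e ∘ b` with `e = d ∘ (b|K)⁻¹ ∈ EndH`; so
`PhiS V q → EndH`, `d|K ↦ e`, is injective. -/
def PHE_stmt : Prop := ∀ (H Hq V : Type) [Group H] [Group Hq] [AddCommGroup V] [DistribMulAction H V] [Finite H]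
  [Finite V] (q : H →* Hq), (∀ k ∈ q.ker, ∀ v : V, k • v = v) → ∀ b ∈ Der H V,
  (∀ v : V, ∃ k ∈ q.ker, b k = v) → (∀ k ∈ q.ker, b k = 0 → k = 1) → Nat.card (PhiS V q) ≤ Nat.card (EndH H V)

/-- ROW lc:MNB (short-medium). `K` a minimal normal subgroup acting trivially on the irreducible module `V` with `p V = 0`; `d` a derivation, not zero on `K`. Then
`d|K` is additive and equivariant; its kernel is a normal subgroup of `H` inside `K`, so trivial; its range is a stable subgroup, so `V`. `K` embeds into `V`, so `k ^ p = 1`. -/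
def MNB_stmt : Prop := ∀ (H V : Type) [Group H] [AddCommGroup V] [DistribMulAction H V] (p : ℕ),
  (∀ v : V, p • v = 0) → Irr H V → ∀ K : Subgroup H, MinN K → (∀ k ∈ K, ∀ v : V, k • v = v) →
  ∀ d ∈ Der H V, (∃ k ∈ K, d k ≠ 0) → (∀ v : V, ∃ k ∈ K, d k = v) ∧ (∀ k ∈ K, d k = 0 → k = 1) ∧
    ∀ k ∈ K, k ^ p = 1

/-- ROW lc:IND (medium; model: `MX/A18.lean`). `V` induced from the `T`-module `W`, `T → A` onto, acting on `W` through `A`. For a pair `(w, a)` of `A` let `t ∈ T` be a
`p`-element over `a` (as in QTA) and take the pair `(j w, i t)`. If `j w = i t u - u` then `w = pr (j w) = a (pr u) - pr u`, no. If `(j w, i t)` and `(j w', i t')` are related by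
`g ∈ H` and `m`: apply `pr` to `j w' - m g j w = i t' u - u`: if `g ∉ i.range` then `pr (g j w) = 0` (`prz`), so `w' ∈ [W, a']`, no. If `g = i c` then `t' = c t ^ m c⁻¹` and
`w' - m c w ∈ [W, a']`: the original pairs are related by `q c`, `m`. -/
def IND_stmt : Prop := ∀ (T H W V A : Type) [Group T] [Group H] [Group A] [AddCommGroup W] [AddCommGroup V]
  [DistribMulAction T W] [DistribMulAction H V] [DistribMulAction A W] [Finite H] [Finite V] (i : T →* H) (j : W →+ V)
  (pr : V →+ W), IndM i j pr → ∀ q : T →* A, Function.Surjective q → (∀ (t : T) (w : W), t • w = q t • w) →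
  ∀ (p : ℕ) [Fact p.Prime] (n : ℕ), BIG A W p n → BIG H V p n

/-- ROW lc:CYC (medium; from BMO, LOW; model: `MX/D03.lean`). `L` normal in `A`, `W^L = 0`, `x ∈ L` a `p`-element with `p ∤ |L : ⟨x⟩|`. A derivation `d` of `A` with `d x ∈ [W, x]` is inner:
`d x = x u - u`, so `d y = y u - u` on `⟨x⟩`, by `inner_of_index` (D02, for the group `L`, `Q = ⟨x⟩`) `d` is inner on `L`, so inner (`inner_of_normal`, A09). So `h1 A W ≤ |E|`, `E` the image of `Der A W` in
`W / [W, x]`. If `x = 1` then `E = 0`, `h1 ≤ 1`, BMO. Otherwise LOW with `s` = representatives of the elements `≠ 0` of `E`, `t = {w₀}`, `w₀ ≠ 0`: for `w ≡ d x`, `w' ≡ d' x` with `x = c x ^ m c⁻¹`, `w' - m c w ∈ [W, x]`: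
`d x = d (c x ^ m c⁻¹) ≡ c d (x ^ m) ≡ m c d x` modulo `[W, x]` (`d (x ^ m) - m d x ∈ [W, x]`, and `c [W, x] = [W, x]`: `[W, x ^ m] ⊆ [W, x]` and `c [W, x ^ m] = [W, x]` have the same order, so `[W, x ^ m] = [W, x]`); so
`w' ≡ m c w ≡ m c d x ≡ d x ≡ w` and `w = w'`. -/
def CYC_stmt : Prop := ∀ (A W : Type) [Group A] [AddCommGroup W] [DistribMulAction A W] [Finite A] [Finite W]
  (p : ℕ) [Fact p.Prime], (∀ w : W, p • w = 0) → Nontrivial W → ∀ L : Subgroup A, L.Normal →
  (∀ w : W, (∀ l ∈ L, l • w = w) → w = 0) → ∀ x : L, (∃ k : ℕ, x ^ (p ^ k) = 1) →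
  ¬ p ∣ (Subgroup.zpowers x).index → BIG A W p (h1 A W)

/-- ROW lc:EV2 (short-medium; from BMO, LOW; model: `MX/D05.lean`). As `star_even` with LOW in the place of `Dn_lower` (`x = a`, `s = {w₀}`, `t = T`): for odd `m` one has `m w = w`, `a ^ m = a`. -/
def EV2_stmt : Prop := ∀ (A W : Type) [Group A] [AddCommGroup W] [DistribMulAction A W] [Finite A] [Finite W],
  Irr A W → Fth A W → (∀ w : W, 2 • w = 0) → Even2 A → BIG A W 2 (h1 A W)

/-- ROW lc:AL5 (short-medium; from BMO, LOW; model: `MX/D07.lean`). As `star_alt5` with LOW in the place of `Dn_lower`: for odd `m` one has `m w = w`, `a ^ m = a`. -/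
def AL5_stmt : Prop := ∀ (A W : Type) [Group A] [AddCommGroup W] [DistribMulAction A W] [Finite A] [Finite W],
  Irr A W → Fth A W → (∀ w : W, 2 • w = 0) → Alt5 A → BIG A W 2 (h1 A W)

/-- ROW lc:STD (short; from EV2, AL5, CYC; model: `MX/D08.lean`). As `star_std`; for odd `p` use CYC with `L` (a Sylow `p`-subgroup of `L` is cyclic: it embeds into `PG q` as in `star_std`); `W^L = 0` (`A21_fix`). -/
def STD_stmt : Prop := ∀ (A W : Type) [Group A] [AddCommGroup W] [DistribMulAction A W] [Finite A] [Finite W]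
  (L : Subgroup A), Std L → Irr A W → Fth A W → ∀ (p : ℕ) [Fact p.Prime], (∀ w : W, p • w = 0) →
  BIG A W p (h1 A W)

/-- ROW lc:PCQ (short-medium). `q : G → G'` onto. A nontrivial `p`-element `y` of `G'` is the image of a `p`-element `x` of `G` (as in QTA); the class of `⟨y⟩` goes to the class of `⟨x⟩`. Injective: if
`⟨x'⟩ = g ⟨x⟩ g⁻¹` then `⟨y'⟩ = q(g) ⟨y⟩ q(g)⁻¹`. (Choose `y` and `x` for every class.) -/
def PCQ_stmt : Prop := ∀ (G G' : Type) [Group G] [Group G'] [Finite G] (p : ℕ) [Fact p.Prime] (q : G →* G'),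
  Function.Surjective q → (pcl p G').ncard ≤ (pcl p G).ncard

/-- ROW lc:PCS (medium). `G` is the semidirect product of `N` (a copy of `V`) and `H`. Injection from (classes of nontrivial cyclic `p`-subgroups of `H`) ⊕ `Fin n` to those of `G`: the class of `⟨x⟩`, `x ∈ H`, to the class of `⟨x⟩` in
`G`; `i` to the class of `⟨z⟩`, `z = j(v) h`, `(v, h) = f i`. `z` is a `p`-element: `z ^ (p ^ k) ∈ N` if `h ^ (p ^ k) = 1`, and `N` has exponent `p`; `z ≠ 1`. (a) Two subgroups `⟨x⟩, ⟨x'⟩` of `H` conjugate in `G` by `j(u) a` (`a ∈ H`) are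
conjugate by `a` (work modulo `N`). (b) If `⟨z⟩ = j(u) a ⟨x⟩ a⁻¹ j(u)⁻¹`, `x ∈ H`, then `j(v) h = j(u) c j(u)⁻¹ = j(u - c u) c` for some `c ∈ H`, so `h = c`, `v = u - h u ∈ [V, h]`, no. (c) If `⟨z'⟩ = g ⟨z⟩ g⁻¹`, `g = j(u) a`: `z' = g z ^ m g⁻¹` with
`m` a natural number, prime to `p` (`z'` and `z ^ m` have the same order, which is the order of `z`, a power of `p`, not 1). `z ^ m = j(v + h v + .. + h^(m-1) v) h ^ m`, so `h' = a h ^ m a⁻¹` and `v' = a (v + .. + h^(m-1) v) + u - h' u`, and
`h^i v ≡ v` modulo `[V, h]`, `a [V, h] = a [V, h ^ m] = [V, h']` (`[V, h] = [V, h ^ m]`: `h` is a power of `h ^ m` because `p ∤ m`). So `v' - m a v ∈ [V, h']`: the pairs are related, `i = j`. -/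
def PCS_stmt : Prop := ∀ (G V : Type) [Group G] [Finite G] [AddCommGroup V] (N H : Subgroup G) [DistribMulAction H V]
  (j : Multiplicative V →* G) (p : ℕ) [Fact p.Prime], N.Normal → Spl N H j → (∀ v : V, p • v = 0) → ∀ n : ℕ, BIG H V p n →
  (pcl p H).ncard + n ≤ (pcl p G).ncard

/-- ROW lc:MSP (short-medium; model: `mcl_step`, `MX/R04.lean`, and `mcl_split`, `MG/F01.lean`). Maximal subgroups containing `N` correspond to those of `G ⧸ N`; `PA` for `M ⊇ N` (by the normal subgroup `N'`) gives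
`PA` for `M / N` (by the image of `N'`). -/
def MSP_stmt : Prop := ∀ (G : Type) [Group G] [Finite G] (N : Subgroup G) [N.Normal] (p : ℕ),
  (mcl G (PA p)).ncard ≤ (mcl (G ⧸ N) (PA p)).ncard + (mcl G (fun M => PA p M ∧ ¬ N ≤ M)).ncard

/-- ROW lc:NA1 (short-medium). `N` minimal normal, not commutative, `M` maximal with `PA p M` (by `N'`): `N ≤ M`. Proof. Suppose not; `N'` is not in `M`, so `N' ⊔ M = ⊤`. `D = N' ⊓ M` is normal (normalized by `M`, and by `N'`, as commutators of `N'` are in `D`).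
`C = {g | ∀ n ∈ N', g n g⁻¹ n⁻¹ ∈ D}` is a normal subgroup, `N' ≤ C`. `C ⊓ M` is normalized by `M` and by `N'` (`n c n⁻¹ = (n c n⁻¹ c⁻¹) c`), so normal. `C = N' (C ⊓ M)`. `N ≤ C`: otherwise `N ⊓ N' = ⊥` (if `N ≤ N'` then `N ≤ C`), so `N`, `N'` commute and `N ≤ C`.
For `x = n c`, `x' = n' c'` in `N` (`n, n' ∈ N'`, `c, c' ∈ C ⊓ M`) the commutator is in `M` (modulo the normal subgroup `C ⊓ M` it is the commutator of `n, n'`, in `D`). So all commutators of `N` are in `M`, and in all conjugates of `M`; the subgroup generated by the commutators of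
elements of `N` is normal in `G`, not trivial, so it is `N`; `N ≤ M`. -/
def NA1_stmt : Prop := ∀ (G : Type) [Group G] [Finite G] (N : Subgroup G), MinN N → (∃ a ∈ N, ∃ b ∈ N, a * b ≠ b * a) →
  ∀ (p : ℕ) (M : Subgroup G), IsCoatom M → PA p M → N ≤ M

/-- ROW lc:NA2 (short-medium). `N` minimal normal, commutative, of exponent a prime `r ≠ p`, `M` maximal with `PA p M` (by `N'`): `N ≤ M`. Proof. Suppose not. `N ⊓ M = ⊥`, `N ⊔ M = ⊤` (`A24_basic`), so `|G : M| = |N|` is a power of `r`. `N' ⊔ M = ⊤`, so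
`|G : M| = |N' : N' ⊓ M|`, and `N' ⊓ M` is normal in `N'` (commutators), every element of the quotient has an order a power of `p`, so this index is a power of `p`. So `|N| = 1`, no. -/
def NA2_stmt : Prop := ∀ (G : Type) [Group G] [Finite G] (N : Subgroup G), MinN N → (∀ a ∈ N, ∀ b ∈ N, a * b = b * a) →
  ∀ (p r : ℕ) [Fact p.Prime] [Fact r.Prime], r ≠ p → (∀ a ∈ N, a ^ r = 1) → ∀ M : Subgroup G, IsCoatom M → PA p M →
  N ≤ M

/-- ROW lc:SOL (medium). The global form for solvable groups, from the local one: a maximal subgroup of a solvable group satisfies `PA p` for a prime `p` dividing `|G|` (`G / core(M)` has a minimal normal subgroup, which is abelian of exponent `p`; e.g. take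
`N` minimal among the normal subgroups not contained in `M`: then `N`'s commutator subgroup is a smaller normal subgroup, so it is in `M`, and the subgroup generated by the `p`-th powers and the commutators is smaller for a suitable prime `p`). The sets `pcl p G`, `p` prime, are disjoint subsets of
the set on the right (orders of the generators), `mcl G (fun _ => True)` is the union of the `mcl G (PA p)`; sum over the primes dividing `|G|`. -/
def SOL_stmt : Prop := ∀ (G : Type) [Group G] [Finite G], Group.IsSolvable G →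
  (∀ (p : ℕ) [Fact p.Prime], (mcl G (PA p)).ncard ≤ (pcl p G).ncard) →
  (mcl G (fun _ => True)).ncard ≤ ({S | ∃ x : G, x ≠ 1 ∧ (∃ p k : ℕ, p.Prime ∧ x ^ (p ^ k) = 1) ∧
    S = Set.range (fun g : G => cj g (Subgroup.zpowers x))} : Set (Set (Subgroup G))).ncard

end Pool.Agent.LC
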